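import Mathlib

open MeasureTheory Module
open scoped RealInnerProductSpace ContDiff

noncomputable section

namespace Pool.Agent.H37Ov

/-- Euclidean four-space. -/
abbrev E4 := EuclideanSpace ℝ (Fin 4)

/-- The unit three-sphere in Euclidean four-space. -/
abbrev S3 := Metric.sphere (0 : E4) 1

/-- `H` is the support function (extended to be positively homogeneous of degree one) of a smooth
closed strictly convex hypersurface of Euclidean four-space.  The hypersurface is the image of the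
unit sphere under `gradient H`; the point `gradient H ν` is the one with outer unit normal `ν`. -/
structure IsSupport (H : E4 → ℝ) : Prop where
  smooth : ContDiffOn ℝ ∞ H {0}ᶜ
  homog : ∀ t : ℝ, 0 < t → ∀ x : E4, H (t • x) = t * H x
  convex : ∀ x u : E4, ‖x‖ = 1 → ⟪x, u⟫ = 0 → u ≠ 0 → 0 < ⟪fderiv ℝ (gradient H) x u, u⟫

/-- Orthogonal projection of four-space onto the line of the unit vector `ν`. -/
def P (ν : S3) : Module.End ℝ E4 :=
  (innerₗ E4 (ν : E4)).smulRight (ν : E4)

/-- The differential at `ν` of the parametrisation `gradient H` of the hypersurface by its outer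
normal, on the tangent space `ν^⊥` (of the sphere at `ν` and of the hypersurface at
`gradient H ν`), extended to four-space by `ν ↦ ν`.  The induced metric, read on the sphere, is
`g (u, v) = ⟪W u, W v⟫` for `u, v` orthogonal to `ν`. -/
def W (H : E4 → ℝ) (ν : S3) : Module.End ℝ E4 :=
  (1 - P ν) * (fderiv ℝ (gradient H) (ν : E4) : E4 →ₗ[ℝ] E4) * (1 - P ν) + P ν

/-- The shape operator (differential of the Gauss map) at the point with outer normal `ν`, on
`ν^⊥`, extended to four-space by `ν ↦ 0`. -/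
def shape (H : E4 → ℝ) (ν : S3) : Module.End ℝ E4 := Ring.inverse (W H ν) - P ν

/-- The Ricci endomorphism of the induced metric, by the Gauss equation (zero on `ν`). -/
def ricci (H : E4 → ℝ) (ν : S3) : Module.End ℝ E4 :=
  (LinearMap.trace ℝ E4 (shape H ν)) • shape H ν - shape H ν * shape H ν

/-- The scalar curvature of the induced metric. -/
def scal (H : E4 → ℝ) (ν : S3) : ℝ := LinearMap.trace ℝ E4 (ricci H ν)

/-- The Schouten endomorphism `Ric - (R / 4) id` of the induced metric on `ν^⊥`, extended to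
four-space by `ν ↦ 0`. -/
def schouten (H : E4 → ℝ) (ν : S3) : Module.End ℝ E4 := ricci H ν - (scal H ν / 4) • (1 - P ν)

/-- The first elementary symmetric function of the eigenvalues of the Schouten endomorphism. -/
def sigma1 (H : E4 → ℝ) (ν : S3) : ℝ := LinearMap.trace ℝ E4 (schouten H ν)

/-- The second elementary symmetric function of the eigenvalues of the Schouten endomorphism. -/
def sigma2 (H : E4 → ℝ) (ν : S3) : ℝ :=
  ((LinearMap.trace ℝ E4 (schouten H ν)) ^ 2
    - LinearMap.trace ℝ E4 (schouten H ν * schouten H ν)) / 2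

/-- `S (g)`, the integral of `sigma1` against the Riemannian volume of the induced metric, whose
density with respect to the surface measure of the unit sphere is `det W`. -/
def total (H : E4 → ℝ) : ℝ :=
  ∫ ν : S3, sigma1 H ν * LinearMap.det (W H ν) ∂(volume : Measure E4).toSphere

/-! ### algebra -/

theorem schur_le {x y z : ℝ} (hx : 0 < x) (hy : 0 < y) (hz : 0 < z) :
    0 ≤ x * (x - y) * (x - z) + y * (y - x) * (y - z) + z * (z - x) * (z - y) := by
  rcases le_total x y with h1 | h1 <;> rcases le_total y z with h2 | h2 <;>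
    rcases le_total x z with h3 | h3 <;>
    nlinarith [mul_nonneg (sub_nonneg.mpr h1) (sub_nonneg.mpr h2),
      mul_nonneg (sub_nonneg.mpr h1) (sub_nonneg.mpr h3),
      mul_nonneg (sub_nonneg.mpr h2) (sub_nonneg.mpr h3),
      mul_nonneg (mul_nonneg (sub_nonneg.mpr h1) (sub_nonneg.mpr h2)) hx.le,
      mul_nonneg (mul_nonneg (sub_nonneg.mpr h1) (sub_nonneg.mpr h2)) hy.le,
      mul_nonneg (mul_nonneg (sub_nonneg.mpr h1) (sub_nonneg.mpr h2)) hz.le,
      mul_nonneg (mul_nonneg (sub_nonneg.mpr h1) (sub_nonneg.mpr h3)) hx.le,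
      mul_nonneg (mul_nonneg (sub_nonneg.mpr h1) (sub_nonneg.mpr h3)) hy.le,
      mul_nonneg (mul_nonneg (sub_nonneg.mpr h1) (sub_nonneg.mpr h3)) hz.le,
      mul_nonneg (mul_nonneg (sub_nonneg.mpr h2) (sub_nonneg.mpr h3)) hx.le,
      mul_nonneg (mul_nonneg (sub_nonneg.mpr h2) (sub_nonneg.mpr h3)) hy.le,
      mul_nonneg (mul_nonneg (sub_nonneg.mpr h2) (sub_nonneg.mpr h3)) hz.le,
      mul_nonneg hx.le (sq_nonneg (x - y)), mul_nonneg hy.le (sq_nonneg (x - y)),
      mul_nonneg hz.le (sq_nonneg (x - y)), mul_nonneg hx.le (sq_nonneg (y - z)),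
      mul_nonneg hy.le (sq_nonneg (y - z)), mul_nonneg hz.le (sq_nonneg (y - z)),
      mul_nonneg hx.le (sq_nonneg (x - z)), mul_nonneg hy.le (sq_nonneg (x - z)),
      mul_nonneg hz.le (sq_nonneg (x - z))]

theorem schur_eq_aux {x y z : ℝ} (hz : 0 < z) (hxy : y ≤ x) (hyz : z ≤ y)
    (h : x * (x - y) * (x - z) + y * (y - x) * (y - z) + z * (z - x) * (z - y) = 0) :
    x = y ∧ y = z := by
  have e : x * (x - y) * (x - z) + y * (y - x) * (y - z) + z * (z - x) * (z - y)
      = (x - y) ^ 2 * (x + y - z) + z * (x - z) * (y - z) := by ring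
  have h1 : 0 ≤ (x - y) ^ 2 * (x + y - z) := mul_nonneg (sq_nonneg _) (by linarith)
  have h2 : 0 ≤ z * (x - z) * (y - z) :=
    mul_nonneg (mul_nonneg hz.le (by linarith)) (by linarith)
  have h3 : (x - y) ^ 2 * (x + y - z) = 0 := by linarith
  have h4 : z * (x - z) * (y - z) = 0 := by linarith
  have h5 : x = y := by
    rcases mul_eq_zero.mp h3 with h | h
    · have := pow_eq_zero_iff (two_ne_zero) |>.mp h
      linarith
    · linarith
  refine ⟨h5, ?_⟩
  rcases mul_eq_zero.mp h4 with h | h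
  · rcases mul_eq_zero.mp h with h | h
    · linarith
    · linarith
  · linarith

theorem schur_eq {x y z : ℝ} (hx : 0 < x) (hy : 0 < y) (hz : 0 < z)
    (h : x * (x - y) * (x - z) + y * (y - x) * (y - z) + z * (z - x) * (z - y) = 0) :
    x = y ∧ y = z := by
  rcases le_total x y with h1 | h1 <;> rcases le_total y z with h2 | h2 <;>
    rcases le_total x z with h3 | h3
  · obtain ⟨a, b⟩ := schur_eq_aux (x := z) (y := y) (z := x) hx h2 h1 (by linarith)
    exact ⟨b.symm, a.symm⟩
  · obtain ⟨a, b⟩ := schur_eq_aux (x := z) (y := y) (z := x) hx h2 h1 (by linarith)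
    exact ⟨b.symm, a.symm⟩
  · obtain ⟨a, b⟩ := schur_eq_aux (x := y) (y := z) (z := x) hx h2 h3 (by linarith)
    exact ⟨(a.trans b).symm, a⟩
  · obtain ⟨a, b⟩ := schur_eq_aux (x := y) (y := x) (z := z) hz h1 h3 (by linarith)
    exact ⟨a.symm, a.trans b⟩
  · obtain ⟨a, b⟩ := schur_eq_aux (x := z) (y := x) (z := y) hy h3 h1 (by linarith)
    exact ⟨b, by linarith⟩
  · obtain ⟨a, b⟩ := schur_eq_aux (x := x) (y := z) (z := y) hy h3 h2 (by linarith)
    exact ⟨by linarith, by linarith⟩
  · obtain ⟨a, b⟩ := schur_eq_aux (x := x) (y := y) (z := z) hz h1 h2 (by linarith)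
    exact ⟨a, b⟩
  · obtain ⟨a, b⟩ := schur_eq_aux (x := x) (y := y) (z := z) hz h1 h2 (by linarith)
    exact ⟨a, b⟩

/-- The pointwise inequality, in terms of the principal curvatures `a, b, c`. -/
theorem pointwise {a b c : ℝ} (ha : 0 < a) (hb : 0 < b) (hc : 0 < c)
    (hq : (a * b + b * c + c * a) ≤
      4 * (a + b + c) * (a * b * c) - (a * b + b * c + c * a) ^ 2) :
    a * b + b * c + c * a ≤ 3 * (a * b * c) ∧
      (a * b + b * c + c * a = 3 * (a * b * c) → a = 1 ∧ b = 1 ∧ c = 1) := by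
  have hab := mul_pos ha hb
  have hbc := mul_pos hb hc
  have hca := mul_pos hc ha
  have h3 : 0 < a * b * c := mul_pos hab hc
  have hs := schur_le hab hbc hca
  set e2 := a * b + b * c + c * a with he2
  set e3 := a * b * c with he3
  have hid : (a * b) * (a * b - b * c) * (a * b - c * a) + (b * c) * (b * c - a * b) * (b * c - c * a)
      + (c * a) * (c * a - a * b) * (c * a - b * c)
      = e2 ^ 3 - 4 * e2 * ((a + b + c) * e3) + 9 * e3 ^ 2 := by
    rw [he2, he3]; ring
  rw [hid] at hs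
  have he2p : 0 < e2 := by positivity
  have hkey : e2 ^ 2 ≤ (3 * e3) ^ 2 := by
    nlinarith [mul_le_mul_of_nonneg_left hq he2p.le]
  refine ⟨by nlinarith, fun heq => ?_⟩
  have h0 : e2 ^ 3 - 4 * e2 * ((a + b + c) * e3) + 9 * e3 ^ 2 = 0 := by
    refine le_antisymm ?_ hs
    have := mul_le_mul_of_nonneg_left hq he2p.le
    nlinarith
  have h1 := schur_eq hab hbc hca (by rw [hid]; exact h0)
  obtain ⟨h4, h5⟩ := h1
  have hac : a = c := by
    have : b * (a - c) = 0 := by linarith
    rcases mul_eq_zero.mp this with h | h <;> linarith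
  have hba : b = a := by
    have : c * (b - a) = 0 := by linarith
    rcases mul_eq_zero.mp this with h | h <;> linarith
  subst hba
  subst hac
  have : b = 1 := by
    have h6 : 3 * b ^ 2 * (b - 1) = 0 := by
      have : e2 = 3 * e3 := heq
      rw [he2, he3] at this
      linarith
    rcases mul_eq_zero.mp h6 with h | h
    · exfalso
      have : 0 < 3 * b ^ 2 := by positivity
      linarith
    · linarith
  exact ⟨this, this, this⟩

/-! ### the operator `W` -/

theorem ne_zero (ν : S3) : (ν : E4) ≠ 0 := by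
  intro h
  have := ν.2
  simp [h] at this

theorem norm_nu (ν : S3) : ‖(ν : E4)‖ = 1 := by
  simp

theorem P_apply (ν : S3) (x : E4) : P ν x = ⟪(ν : E4), x⟫ • (ν : E4) := by
  simp [P]

theorem P_nu (ν : S3) : P ν (ν : E4) = (ν : E4) := by
  rw [P_apply, real_inner_self_eq_norm_sq, norm_nu]
  simp

/-- The tangent space. -/
abbrev Tan (ν : S3) : Submodule ℝ E4 := (ℝ ∙ (ν : E4))ᗮ

theorem P_tan (ν : S3) (x : Tan ν) : P ν (x : E4) = 0 := by
  rw [P_apply, (Submodule.mem_orthogonal_singleton_iff_inner_right).mp x.2, zero_smul]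

theorem finrank_tan (ν : S3) : finrank ℝ (Tan ν) = 3 := by
  have : Fact (finrank ℝ E4 = 3 + 1) := ⟨by simp⟩
  exact Submodule.finrank_orthogonal_span_singleton (ne_zero ν)

theorem inner_gradient (H : E4 → ℝ) (x v : E4) : ⟪gradient H x, v⟫ = fderiv ℝ H x v := by
  have := toDual_gradient (𝕜 := ℝ) (f := H) (x := x)
  rw [← this]
  simp

theorem contDiffAt {H : E4 → ℝ} (hH : IsSupport H) {x : E4} (hx : x ≠ 0) : ContDiffAt ℝ ∞ H x :=
  hH.smooth.contDiffAt (isOpen_compl_singleton.mem_nhds (by simpa using hx))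

theorem hasFDerivAt_gradient {H : E4 → ℝ} (hH : IsSupport H) {x : E4} (hx : x ≠ 0) :
    HasFDerivAt (gradient H)
      (((InnerProductSpace.toDual ℝ E4).symm.toContinuousLinearEquiv.toContinuousLinearMap :
        (E4 →L[ℝ] ℝ) →L[ℝ] E4).comp (fderiv ℝ (fderiv ℝ H) x)) x := by
  have h1 : DifferentiableAt ℝ (fderiv ℝ H) x := by
    have := (contDiffAt hH hx).fderiv_right (m := 1) (by norm_cast)
    exact this.differentiableAt (by norm_num)
  have h2 := ((InnerProductSpace.toDual ℝ E4).symm.toContinuousLinearEquiv.toContinuousLinearMap :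
        (E4 →L[ℝ] ℝ) →L[ℝ] E4).hasFDerivAt (x := fderiv ℝ H x)
  exact h2.comp x h1.hasFDerivAt

theorem inner_fderiv_gradient {H : E4 → ℝ} (hH : IsSupport H) {x : E4} (hx : x ≠ 0) (u v : E4) :
    ⟪fderiv ℝ (gradient H) x u, v⟫ = fderiv ℝ (fderiv ℝ H) x u v := by
  rw [(hasFDerivAt_gradient hH hx).fderiv]
  simp

theorem inner_fderiv_symm {H : E4 → ℝ} (hH : IsSupport H) {x : E4} (hx : x ≠ 0) (u v : E4) :
    ⟪fderiv ℝ (gradient H) x u, v⟫ = ⟪u, fderiv ℝ (gradient H) x v⟫ := by
  rw [inner_fderiv_gradient hH hx, real_inner_comm, inner_fderiv_gradient hH hx]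
  have h12 : (1 : WithTop ℕ∞) + 1 ≤ ∞ := by norm_cast
  rw [one_add_one_eq_two] at h12
  have : IsSymmSndFDerivAt ℝ H x := (contDiffAt hH hx).isSymmSndFDerivAt
    (by rw [minSmoothness_of_isRCLikeNormedField]; exact h12)
  exact this.eq u v

/-- The restriction of `W` to the tangent space. -/
def Wt (H : E4 → ℝ) (ν : S3) : Tan ν →ₗ[ℝ] Tan ν :=
  ((Tan ν).orthogonalProjectionOnto : E4 →ₗ[ℝ] Tan ν) ∘ₗ
    (fderiv ℝ (gradient H) (ν : E4) : E4 →ₗ[ℝ] E4) ∘ₗ (Tan ν).subtype

theorem inner_Wt {H : E4 → ℝ} (ν : S3) (u v : Tan ν) :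
    ⟪Wt H ν u, v⟫ = ⟪fderiv ℝ (gradient H) (ν : E4) (u : E4), (v : E4)⟫ := by
  simp [Wt]

theorem Wt_symm {H : E4 → ℝ} (hH : IsSupport H) (ν : S3) : (Wt H ν).IsSymmetric := by
  intro u v
  rw [inner_Wt, real_inner_comm (Wt H ν v) u, inner_Wt, inner_fderiv_symm hH (ne_zero ν),
    real_inner_comm]

/-- The eigenvalues of `Wt` (principal radii of curvature). -/
def rad {H : E4 → ℝ} (hH : IsSupport H) (ν : S3) : Fin 3 → ℝ :=
  (Wt_symm hH ν).eigenvalues (finrank_tan ν)

/-- An orthonormal eigenbasis of `Wt`. -/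
def bas {H : E4 → ℝ} (hH : IsSupport H) (ν : S3) : OrthonormalBasis (Fin 3) ℝ (Tan ν) :=
  (Wt_symm hH ν).eigenvectorBasis (finrank_tan ν)

theorem Wt_bas {H : E4 → ℝ} (hH : IsSupport H) (ν : S3) (i : Fin 3) :
    Wt H ν (bas hH ν i) = rad hH ν i • bas hH ν i := by
  simp [rad, bas]

theorem rad_pos {H : E4 → ℝ} (hH : IsSupport H) (ν : S3) (i : Fin 3) : 0 < rad hH ν i := by
  have h1 : ⟪Wt H ν (bas hH ν i), bas hH ν i⟫ = rad hH ν i := by
    rw [Wt_bas, real_inner_smul_left, real_inner_self_eq_norm_sq, (bas hH ν).norm_eq_one]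
    ring
  rw [← h1, inner_Wt]
  refine hH.convex _ _ (norm_nu ν) ?_ ?_
  · exact (Submodule.mem_orthogonal_singleton_iff_inner_right).mp (bas hH ν i).2
  · intro h
    have : bas hH ν i = 0 := Subtype.ext h
    have h2 := (bas hH ν).norm_eq_one i
    rw [this] at h2
    simp at h2

theorem iota_proj (ν : S3) (x : E4) :
    (((Tan ν).orthogonalProjectionOnto x : Tan ν) : E4) = x - ⟪(ν : E4), x⟫ • (ν : E4) := by
  rw [Submodule.orthogonalProjectionOnto_orthogonal]
  simp only
  rw [Submodule.starProjection_unit_singleton ℝ (norm_nu ν)]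

theorem W_tan (H : E4 → ℝ) (ν : S3) (x : Tan ν) : W H ν (x : E4) = ((Wt H ν x : Tan ν) : E4) := by
  have h : W H ν (x : E4) = fderiv ℝ (gradient H) (ν : E4) ((x : E4) - P ν (x : E4))
      - P ν (fderiv ℝ (gradient H) (ν : E4) ((x : E4) - P ν (x : E4))) + P ν (x : E4) := rfl
  rw [h, P_tan, sub_zero, add_zero, P_apply]
  simp only [Wt, LinearMap.comp_apply, Submodule.subtype_apply, iota_proj,
    ContinuousLinearMap.coe_coe]

theorem W_nu (H : E4 → ℝ) (ν : S3) : W H ν (ν : E4) = (ν : E4) := by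
  simp only [W, LinearMap.add_apply, Module.End.mul_apply, LinearMap.sub_apply,
    Module.End.one_apply, P_nu, sub_self, map_zero, zero_add]

/-- The adapted family of four vectors: the normal and the principal directions. -/
def fam {H : E4 → ℝ} (hH : IsSupport H) (ν : S3) : Fin 4 → E4 :=
  Fin.cons (ν : E4) fun i => ((bas hH ν i : Tan ν) : E4)

theorem fam_orthonormal {H : E4 → ℝ} (hH : IsSupport H) (ν : S3) : Orthonormal ℝ (fam hH ν) := by
  rw [orthonormal_iff_ite]
  intro i j
  refine Fin.cases ?_ (fun i => ?_) i <;> refine Fin.cases ?_ (fun j => ?_) j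
  · simp [fam]
  · have : ⟪(ν : E4), ((bas hH ν j : Tan ν) : E4)⟫ = 0 :=
      (Submodule.mem_orthogonal_singleton_iff_inner_right).mp (bas hH ν j).2
    simp [fam, this, (Fin.succ_ne_zero j).symm]
  · have : ⟪((bas hH ν i : Tan ν) : E4), (ν : E4)⟫ = 0 :=
      (Submodule.mem_orthogonal_singleton_iff_inner_left).mp (bas hH ν i).2
    simp [fam, this, Fin.succ_ne_zero i]
  · have h := (orthonormal_iff_ite.mp (bas hH ν).orthonormal) i j
    rw [Submodule.coe_inner] at h
    simp only [fam, Fin.cons_succ, Fin.succ_inj]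
    exact h

/-- The adapted orthonormal basis. -/
def B {H : E4 → ℝ} (hH : IsSupport H) (ν : S3) : OrthonormalBasis (Fin 4) ℝ E4 :=
  (basisOfOrthonormalOfCardEqFinrank (fam_orthonormal hH ν) (by simp)).toOrthonormalBasis
    (by rw [coe_basisOfOrthonormalOfCardEqFinrank]; exact fam_orthonormal hH ν)

theorem B_apply {H : E4 → ℝ} (hH : IsSupport H) (ν : S3) (i : Fin 4) :
    B hH ν i = fam hH ν i := by
  simp [B]

theorem B_zero {H : E4 → ℝ} (hH : IsSupport H) (ν : S3) : B hH ν 0 = (ν : E4) := by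
  rw [B_apply]; rfl

theorem B_succ {H : E4 → ℝ} (hH : IsSupport H) (ν : S3) (i : Fin 3) :
    B hH ν i.succ = ((bas hH ν i : Tan ν) : E4) := by
  rw [B_apply]; rfl

/-- Trace of an operator that is diagonal in an orthonormal basis. -/
theorem trace_diag (b : OrthonormalBasis (Fin 4) ℝ E4) (T : Module.End ℝ E4) (c : ℝ)
    (d : Fin 3 → ℝ) (h0 : T (b 0) = c • b 0) (h : ∀ i : Fin 3, T (b i.succ) = d i • b i.succ) :
    LinearMap.trace ℝ E4 T = c + (d 0 + d 1 + d 2) := by
  rw [LinearMap.trace_eq_sum_inner T b, Fin.sum_univ_succ, h0]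
  simp only [h, real_inner_smul_right, real_inner_self_eq_norm_sq, b.norm_eq_one]
  rw [Fin.sum_univ_three]
  ring

/-- Determinant of an operator that is diagonal in an orthonormal basis. -/
theorem det_diag (b : OrthonormalBasis (Fin 4) ℝ E4) (T : Module.End ℝ E4) (c : ℝ)
    (d : Fin 3 → ℝ) (h0 : T (b 0) = c • b 0) (h : ∀ i : Fin 3, T (b i.succ) = d i • b i.succ) :
    LinearMap.det T = c * (d 0 * d 1 * d 2) := by
  rw [← LinearMap.det_toMatrix b.toBasis T]
  have hall : ∀ j : Fin 4, T (b j) = (Fin.cons c d : Fin 4 → ℝ) j • b j := by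
    intro j
    refine Fin.cases ?_ (fun j => ?_) j
    · simpa using h0
    · simpa using h j
  have hm : LinearMap.toMatrix b.toBasis b.toBasis T
      = Matrix.diagonal (Fin.cons c d : Fin 4 → ℝ) := by
    ext i j
    rw [LinearMap.toMatrix_apply, b.coe_toBasis, b.coe_toBasis_repr_apply, b.repr_apply_apply,
      Matrix.diagonal_apply, hall, real_inner_smul_right,
      (orthonormal_iff_ite.mp b.orthonormal) i j]
    by_cases hij : i = j
    · simp [hij]
    · simp [hij]
  rw [hm, Matrix.det_diagonal, Fin.prod_univ_succ]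
  simp only [Fin.cons_zero, Fin.cons_succ]
  rw [Fin.prod_univ_three]

section formulas

variable {H : E4 → ℝ} (hH : IsSupport H) (ν : S3)

theorem W_B0 : W H ν (B hH ν 0) = (1 : ℝ) • B hH ν 0 := by
  rw [B_zero, W_nu, one_smul]

theorem W_B (i : Fin 3) : W H ν (B hH ν i.succ) = rad hH ν i • B hH ν i.succ := by
  rw [B_succ, W_tan, Wt_bas]
  rfl

theorem P_B0 : P ν (B hH ν 0) = B hH ν 0 := by
  rw [B_zero, P_nu]

theorem P_B (i : Fin 3) : P ν (B hH ν i.succ) = 0 := by
  rw [B_succ, P_tan]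

include hH in
theorem det_W : LinearMap.det (W H ν) = rad hH ν 0 * rad hH ν 1 * rad hH ν 2 := by
  rw [det_diag (B hH ν) _ _ _ (W_B0 hH ν) (W_B hH ν), one_mul]

include hH in
theorem det_W_pos : 0 < LinearMap.det (W H ν) := by
  rw [det_W hH]
  exact mul_pos (mul_pos (rad_pos hH ν 0) (rad_pos hH ν 1)) (rad_pos hH ν 2)

include hH in
theorem isUnit_W : IsUnit (W H ν) := by
  rw [LinearMap.isUnit_iff_isUnit_det]
  exact (det_W_pos hH ν).ne'.isUnit

theorem inv_apply {x : E4} {r : ℝ} (hr : r ≠ 0) (hx : W H ν x = r • x) (hu : IsUnit (W H ν)) :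
    Ring.inverse (W H ν) x = r⁻¹ • x := by
  have h1 : Ring.inverse (W H ν) * W H ν = 1 := Ring.inverse_mul_cancel _ hu
  have h2 : (Ring.inverse (W H ν) * W H ν) x = x := by rw [h1]; rfl
  rw [Module.End.mul_apply, hx, map_smul] at h2
  rw [eq_comm, inv_smul_eq_iff₀ hr, eq_comm]
  exact h2

/-- principal curvatures -/
def cur (i : Fin 3) : ℝ := (rad hH ν i)⁻¹

theorem cur_pos (i : Fin 3) : 0 < cur hH ν i := inv_pos.mpr (rad_pos hH ν i)

theorem shape_B0 : shape H ν (B hH ν 0) = (0 : ℝ) • B hH ν 0 := by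
  rw [shape, LinearMap.sub_apply, inv_apply ν one_ne_zero (W_B0 hH ν) (isUnit_W hH ν), P_B0]
  simp

theorem shape_B (i : Fin 3) : shape H ν (B hH ν i.succ) = cur hH ν i • B hH ν i.succ := by
  rw [shape, LinearMap.sub_apply, inv_apply ν (rad_pos hH ν i).ne' (W_B hH ν i) (isUnit_W hH ν),
    P_B, sub_zero]
  rfl

theorem trace_shape : LinearMap.trace ℝ E4 (shape H ν)
    = cur hH ν 0 + cur hH ν 1 + cur hH ν 2 := by
  rw [trace_diag (B hH ν) _ _ _ (shape_B0 hH ν) (shape_B hH ν), zero_add]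

theorem ricci_B0 : ricci H ν (B hH ν 0) = (0 : ℝ) • B hH ν 0 := by
  rw [ricci]
  simp only [LinearMap.sub_apply, LinearMap.smul_apply, Module.End.mul_apply, shape_B0, zero_smul,
    map_zero, smul_zero, sub_zero]

theorem ricci_B (i : Fin 3) : ricci H ν (B hH ν i.succ)
    = ((cur hH ν 0 + cur hH ν 1 + cur hH ν 2) * cur hH ν i - cur hH ν i ^ 2) •
      B hH ν i.succ := by
  rw [ricci, trace_shape hH ν]
  simp only [LinearMap.sub_apply, LinearMap.smul_apply, Module.End.mul_apply, shape_B, map_smul,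
    smul_smul]
  rw [← sub_smul]
  congr 1
  ring

theorem scal_eq : scal H ν = 2 * (cur hH ν 0 * cur hH ν 1 + cur hH ν 1 * cur hH ν 2
    + cur hH ν 2 * cur hH ν 0) := by
  rw [scal, trace_diag (B hH ν) _ _ _ (ricci_B0 hH ν) (ricci_B hH ν)]
  ring

theorem schouten_B0 : schouten H ν (B hH ν 0) = (0 : ℝ) • B hH ν 0 := by
  rw [schouten]
  simp only [LinearMap.sub_apply, LinearMap.smul_apply, ricci_B0, Module.End.one_apply, P_B0,
    sub_self, smul_zero, zero_smul]

theorem schouten_B (i : Fin 3) : schouten H ν (B hH ν i.succ)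
    = ((cur hH ν 0 + cur hH ν 1 + cur hH ν 2) * cur hH ν i - cur hH ν i ^ 2 - scal H ν / 4) •
      B hH ν i.succ := by
  rw [schouten]
  simp only [LinearMap.sub_apply, LinearMap.smul_apply, ricci_B, Module.End.one_apply, P_B,
    sub_zero]
  rw [← sub_smul]

theorem sigma1_eq : sigma1 H ν = (cur hH ν 0 * cur hH ν 1 + cur hH ν 1 * cur hH ν 2
    + cur hH ν 2 * cur hH ν 0) / 2 := by
  rw [sigma1, trace_diag (B hH ν) _ _ _ (schouten_B0 hH ν) (schouten_B hH ν), scal_eq hH ν]
  ring

theorem sigma2_eq : sigma2 H ν = (4 * (cur hH ν 0 + cur hH ν 1 + cur hH ν 2) *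
    (cur hH ν 0 * cur hH ν 1 * cur hH ν 2) - (cur hH ν 0 * cur hH ν 1 + cur hH ν 1 * cur hH ν 2
    + cur hH ν 2 * cur hH ν 0) ^ 2) / 4 := by
  have h0 : (schouten H ν * schouten H ν) (B hH ν 0) = (0 : ℝ) • B hH ν 0 := by
    rw [Module.End.mul_apply, schouten_B0, zero_smul, map_zero]
  have h2 : ∀ i : Fin 3, (schouten H ν * schouten H ν) (B hH ν i.succ)
    = ((cur hH ν 0 + cur hH ν 1 + cur hH ν 2) * cur hH ν i - cur hH ν i ^ 2 - scal H ν / 4) ^ 2 •
      B hH ν i.succ := by
    intro i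
    rw [Module.End.mul_apply, schouten_B hH ν, map_smul, schouten_B hH ν, smul_smul, ← pow_two]
  rw [sigma2, trace_diag (B hH ν) _ _ _ (schouten_B0 hH ν) (schouten_B hH ν),
    trace_diag (B hH ν) _ _ _ h0 h2, scal_eq hH ν]
  ring

include hH in
theorem integrand_eq : sigma1 H ν * LinearMap.det (W H ν)
    = (LinearMap.trace ℝ E4 (W H ν) - 1) / 2 := by
  rw [trace_diag (B hH ν) _ _ _ (W_B0 hH ν) (W_B hH ν), sigma1_eq hH ν, det_W hH ν]
  have h0 := (rad_pos hH ν 0).ne'
  have h1 := (rad_pos hH ν 1).ne'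
  have h2 := (rad_pos hH ν 2).ne'
  simp only [cur]
  field_simp
  ring

theorem main_pointwise (hq : 1 / 2 ≤ sigma2 H ν / sigma1 H ν) :
    sigma1 H ν * LinearMap.det (W H ν) ≤ 3 / 2 ∧
      (sigma1 H ν * LinearMap.det (W H ν) = 3 / 2 → ∀ i, rad hH ν i = 1) := by
  have h0 := cur_pos hH ν 0
  have h1 := cur_pos hH ν 1
  have h2 := cur_pos hH ν 2
  have hs1 : 0 < sigma1 H ν := by
    rw [sigma1_eq hH ν]
    have := mul_pos h0 h1
    have := mul_pos h1 h2
    have := mul_pos h2 h0
    positivity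
  rw [le_div_iff₀ hs1, sigma2_eq hH ν, sigma1_eq hH ν] at hq
  have key := pointwise h0 h1 h2 (by linarith)
  have hdet : LinearMap.det (W H ν) * (cur hH ν 0 * cur hH ν 1 * cur hH ν 2) = 1 := by
    rw [det_W hH ν]
    have h0 := (rad_pos hH ν 0).ne'
    have h1 := (rad_pos hH ν 1).ne'
    have h2 := (rad_pos hH ν 2).ne'
    simp only [cur]
    field_simp
  have hdp := det_W_pos hH ν
  constructor
  · rw [sigma1_eq hH ν]
    have := mul_le_mul_of_nonneg_left key.1 hdp.le
    nlinarith
  · intro heq i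
    have h5 : cur hH ν 0 * cur hH ν 1 + cur hH ν 1 * cur hH ν 2 + cur hH ν 2 * cur hH ν 0
        = 3 * (cur hH ν 0 * cur hH ν 1 * cur hH ν 2) := by
      rw [sigma1_eq hH ν] at heq
      have h6 : LinearMap.det (W H ν) * (cur hH ν 0 * cur hH ν 1 + cur hH ν 1 * cur hH ν 2
          + cur hH ν 2 * cur hH ν 0) = LinearMap.det (W H ν) *
          (3 * (cur hH ν 0 * cur hH ν 1 * cur hH ν 2)) := by linarith
      exact mul_left_cancel₀ hdp.ne' h6
    obtain ⟨a, b, c⟩ := key.2 h5
    have hi : cur hH ν i = 1 := by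
      fin_cases i <;> assumption
    have : (rad hH ν i)⁻¹ = 1 := hi
    exact inv_eq_one.mp this

end formulas

/-! ### measure and continuity -/

theorem toSphere_univ : ((volume : Measure E4).toSphere).real Set.univ = 2 * Real.pi ^ 2 := by
  rw [Measure.real, Measure.toSphere_apply_univ, EuclideanSpace.volume_ball]
  have h1 : Real.Gamma ((4 : ℝ) / 2 + 1) = 2 := by
    have : ((4 : ℝ) / 2 + 1) = ((2 : ℕ) : ℝ) + 1 := by norm_num
    rw [this, Real.Gamma_nat_eq_factorial]
    norm_num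
  have h2 : √Real.pi ^ 4 = Real.pi ^ 2 := by
    have := Real.sq_sqrt Real.pi_pos.le
    nlinarith [this, sq_nonneg (√Real.pi)]
  simp only [Fintype.card_fin, finrank_euclideanSpace, Nat.cast_ofNat, h1, h2]
  rw [ENNReal.toReal_mul]
  simp only [ENNReal.ofReal_one, one_pow, one_mul, ENNReal.toReal_ofNat]
  rw [ENNReal.toReal_ofReal (by positivity)]
  ring

theorem continuous_D {H : E4 → ℝ} (hH : IsSupport H) :
    Continuous fun ν : S3 => fderiv ℝ (gradient H) (ν : E4) := by
  rw [continuous_iff_continuousAt]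
  intro ν
  have h1 : ContDiffAt ℝ 1 (gradient H) (ν : E4) := by
    have h2 : ContDiffAt ℝ 1 (fderiv ℝ H) (ν : E4) :=
      (contDiffAt hH (ne_zero ν)).fderiv_right (by norm_cast)
    have h3 := ((InnerProductSpace.toDual ℝ E4).symm.toContinuousLinearEquiv.toContinuousLinearMap :
        (E4 →L[ℝ] ℝ) →L[ℝ] E4).contDiff (n := 1) |>.contDiffAt (x := fderiv ℝ H (ν : E4))
    exact h3.comp _ h2
  have h4 : ContDiffAt ℝ 0 (fderiv ℝ (gradient H)) (ν : E4) := h1.fderiv_right (by norm_num)
  exact h4.continuousAt.comp continuous_subtype_val.continuousAt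

theorem continuous_P_apply {X : S3 → E4} (hX : Continuous X) :
    Continuous fun ν : S3 => P ν (X ν) := by
  simp only [P_apply]
  exact (Continuous.inner (𝕜 := ℝ) continuous_subtype_val hX).smul continuous_subtype_val

theorem continuous_W {H : E4 → ℝ} (hH : IsSupport H) (x : E4) :
    Continuous fun ν : S3 => W H ν x := by
  have h : (fun ν : S3 => W H ν x) = fun ν : S3 =>
      fderiv ℝ (gradient H) (ν : E4) (x - P ν x)
      - P ν (fderiv ℝ (gradient H) (ν : E4) (x - P ν x)) + P ν x := rfl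
  rw [h]
  have h1 : Continuous fun ν : S3 => P ν x := continuous_P_apply continuous_const
  have h2 : Continuous fun ν : S3 => fderiv ℝ (gradient H) (ν : E4) (x - P ν x) :=
    (continuous_D hH).clm_apply (continuous_const.sub h1)
  exact (h2.sub (continuous_P_apply h2)).add h1

theorem continuous_integrand {H : E4 → ℝ} (hH : IsSupport H) :
    Continuous fun ν : S3 => sigma1 H ν * LinearMap.det (W H ν) := by
  have h1 : (fun ν : S3 => sigma1 H ν * LinearMap.det (W H ν)) = fun ν : S3 =>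
      ((∑ i, ⟪EuclideanSpace.basisFun (Fin 4) ℝ i,
        W H ν (EuclideanSpace.basisFun (Fin 4) ℝ i)⟫) - 1) / 2 := by
    funext ν
    rw [integrand_eq hH ν, LinearMap.trace_eq_sum_inner _ (EuclideanSpace.basisFun (Fin 4) ℝ)]
  rw [h1]
  refine Continuous.div_const (Continuous.sub ?_ continuous_const) 2
  refine continuous_finsetSum _ fun i _ => ?_
  exact Continuous.inner (𝕜 := ℝ) continuous_const (continuous_W hH _)

theorem main (H : E4 → ℝ) (hH : IsSupport H)
    (hq : ∀ ν : S3, 1 / 2 ≤ sigma2 H ν / sigma1 H ν) :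
    total H ≤ 3 * Real.pi ^ 2 ∧ (total H = 3 * Real.pi ^ 2 → ∀ ν : S3, W H ν = 1) := by
  have hle : ∀ ν : S3, sigma1 H ν * LinearMap.det (W H ν) ≤ 3 / 2 := fun ν =>
    (main_pointwise hH ν (hq ν)).1
  have hcont := continuous_integrand hH
  have hint : Integrable (fun ν : S3 => sigma1 H ν * LinearMap.det (W H ν))
      (volume : Measure E4).toSphere := hcont.integrable_of_hasCompactSupport
        (HasCompactSupport.of_compactSpace _)
  have hc : ∫ _ν : S3, (3 / 2 : ℝ) ∂(volume : Measure E4).toSphere = 3 * Real.pi ^ 2 := by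
    rw [integral_const, toSphere_univ, smul_eq_mul]
    ring
  constructor
  · rw [total, ← hc]
    exact integral_mono hint (integrable_const _) hle
  · intro heq ν
    have h0 : ∫ ν : S3, (3 / 2 - sigma1 H ν * LinearMap.det (W H ν))
        ∂(volume : Measure E4).toSphere = 0 := by
      rw [integral_sub (integrable_const _) hint, hc]
      have : total H = ∫ ν : S3, sigma1 H ν * LinearMap.det (W H ν)
        ∂(volume : Measure E4).toSphere := rfl
      rw [← this, heq, sub_self]
    have hnn : 0 ≤ fun ν : S3 => 3 / 2 - sigma1 H ν * LinearMap.det (W H ν) := fun ν => by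
      simpa using hle ν
    have hc2 : Continuous fun ν : S3 => 3 / 2 - sigma1 H ν * LinearMap.det (W H ν) :=
      continuous_const.sub hcont
    have hz := (integral_eq_zero_iff_of_nonneg hnn
      ((integrable_const _).sub hint)).mp h0
    have hz2 := (hc2.ae_eq_iff_eq _ continuous_const).mp hz
    have hz3 : 3 / 2 - sigma1 H ν * LinearMap.det (W H ν) = 0 := congrFun hz2 ν
    have hr := (main_pointwise hH ν (hq ν)).2 (by linarith)
    refine (B hH ν).toBasis.ext fun i => ?_
    rw [OrthonormalBasis.coe_toBasis]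
    refine Fin.cases ?_ (fun i => ?_) i
    · rw [W_B0, one_smul]; rfl
    · rw [W_B, hr, one_smul]; rfl

end Pool.Agent.H37Ov
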